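import Pool.Agent.Helper78.MultiCake.Step

/-!
# Personalized piece counts in multi-island cake cutting

`N = m + n - 1`. With `K = ⌊N / n⌋`, an agent with `kᵢ ≤ K` first gets `K` intervals worth `K / N`
of the cake and keeps the best `kᵢ` of them; an agent with `kᵢ ≥ K + 1` gets `K + 1` intervals worth
`1 / n` of the cake. The allocation is built by induction on the number of agents: either a moving
knife passes over a set of `K - 1` whole islands and a part of one further island, or the islands
are split into `n` blocks of `K` or `K - 1` islands and an envy-free matching of some agents to some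
of the blocks is used.
-/

set_option autoImplicit false

open MeasureTheory

namespace Pool.Agent.Results.MP_a8acf3_co.PersonalizedPieces

/-- The multicake with islands `[a l, a l + 1]`. -/
def cake {m : ℕ} (a : Fin m → ℝ) : Set ℝ := ⋃ l, Set.Icc (a l) (a l + 1)

/-- `I` is an interval of the multicake: an interval contained in a single island. -/
def IsIntervalOf {m : ℕ} (a : Fin m → ℝ) (I : Set ℝ) : Prop :=
  I.OrdConnected ∧ ∃ l, I ⊆ Set.Icc (a l) (a l + 1)

open Pool.Agent.Helper78.MultiCake in
/-- Every agent `i` can be given a union of at most `k i` intervals of the multicake which is worth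
at least `min (1 / n) (k i / (m + n - 1))` of the whole multicake to the agent. -/
theorem result (m n : ℕ) (hm : 1 ≤ m) (hn : 1 ≤ n) (a : Fin m → ℝ)
    (ha : ∀ l l', l ≠ l' → Disjoint (Set.Icc (a l) (a l + 1)) (Set.Icc (a l') (a l' + 1)))
    (k : Fin n → ℕ) (_hk : ∀ i, 1 ≤ k i) (v : Fin n → ℝ → ℝ)
    (hv : ∀ i, ∀ x ∈ cake a, 0 ≤ v i x) (hint : ∀ i, IntegrableOn (v i) (cake a)) :
    ∃ Z : Fin n → Set ℝ, (∀ i j, i ≠ j → Disjoint (Z i) (Z j)) ∧
      ∀ i, (∃ F : Finset (Set ℝ), F.card ≤ k i ∧ (∀ I ∈ F, IsIntervalOf a I) ∧ Z i = ⋃ I ∈ F, I) ∧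
        min (1 / (n : ℝ)) (k i / ((m : ℝ) + n - 1)) * ∫ x in cake a, v i x ≤
          ∫ x in Z i, v i x := by
  classical
  have hmeas : MeasurableSet (cake a) := MeasurableSet.iUnion fun l => measurableSet_Icc
  -- the densities extended by zero
  let v' : Fin n → ℝ → ℝ := fun i => (cake a).indicator (v i)
  have hv'0 : ∀ i x, 0 ≤ v' i x := by
    intro i x
    exact Set.indicator_nonneg (fun y hy => hv i y hy) x
  have hv'int : ∀ i, Integrable (v' i) := fun i => (integrable_indicator_iff hmeas).2 (hint i)
  let G : Fin n → Fin m → ℝ → ℝ := fun i l x => ∫ t in (a l)..x, v' i t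
  have hii : ∀ i x y, IntervalIntegrable (v' i) volume x y :=
    fun i x y => (hv'int i).intervalIntegrable
  have hGsub : ∀ i l x y, G i l y - G i l x = ∫ t in x..y, v' i t := by
    intro i l x y
    exact intervalIntegral.integral_interval_sub_left (hii i _ _) (hii i _ _)
  have hGmono : ∀ i l, Monotone (G i l) := by
    intro i l x y hxy
    have h1 := hGsub i l x y
    have h2 : 0 ≤ ∫ t in x..y, v' i t :=
      intervalIntegral.integral_nonneg hxy (fun t _ => hv'0 i t)
    linarith
  have hGcont : ∀ i l, Continuous (G i l) :=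
    fun i l => intervalIntegral.continuous_primitive (hii i) (a l)
  -- value of the whole cake
  have hV : ∀ i, ∑ l, wt G (fun l => a l + 1) a i l = ∫ x in cake a, v i x := by
    intro i
    have h1 : ∫ x in cake a, v i x = ∫ x in cake a, v' i x := by
      apply setIntegral_congr_fun hmeas
      intro x hx
      simp only [v', Set.indicator_of_mem hx]
    rw [h1]
    unfold cake
    rw [integral_iUnion_fintype (fun l => measurableSet_Icc)
      (fun l l' hne => ha l l' hne) (fun l => (hv'int i).integrableOn)]
    apply Finset.sum_congr rfl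
    intro l _
    unfold wt
    rw [hGsub, intervalIntegral.integral_of_le (by linarith), integral_Icc_eq_integral_Ioc]
  set V : Fin n → ℝ := fun i => ∫ x in cake a, v i x with hVdef
  have hV0 : ∀ i, 0 ≤ V i := fun i => setIntegral_nonneg hmeas (hv i)
  -- parameters
  obtain ⟨N, hN⟩ : ∃ N, m + n = N + 1 := ⟨m + n - 1, by omega⟩
  have hNR : (m : ℝ) + n - 1 = N := by
    have : (m : ℝ) + n = N + 1 := by exact_mod_cast hN
    linarith
  have hNn : n ≤ N := by omega
  set K := N / n with hK
  have hn0 : 0 < n := hn
  have hK1 : 1 ≤ K := (Nat.one_le_div_iff hn0).2 hNn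
  have hdm : n * K + N % n = N := Nat.div_add_mod N n
  have hmod : N % n < n := Nat.mod_lt N hn0
  have hNpos : (0 : ℝ) < N := by
    have : 0 < N := by omega
    exact_mod_cast this
  have hnpos : (0 : ℝ) < n := by exact_mod_cast hn0
  have hKpos : (0 : ℝ) < K := by
    have : 0 < K := hK1
    exact_mod_cast this
  let κ' : Fin n → ℕ := fun i => if k i ≤ K then K else K + 1
  let θ' : Fin n → ℝ := fun i => if k i ≤ K then (K : ℝ) / N * V i else V i / n
  have hfeas : Feas G (fun l => a l + 1) Finset.univ (Finset.univ : Finset (Fin m)) a κ' θ' := by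
    apply Q_all (J := Fin n) n (Fin m) G (fun l => a l + 1) a Finset.univ Finset.univ K κ' θ'
      hGmono hGcont (fun l => by linarith) (by simp)
    · intro j _
      simp only [θ']
      split_ifs
      · exact mul_nonneg (by positivity) (hV0 j)
      · exact div_nonneg (hV0 j) hnpos.le
    · exact hK1
    · simp only [Finset.card_univ, Fintype.card_fin]
      omega
    · simp only [Finset.card_univ, Fintype.card_fin]
      have : n * (K + 1) = n * K + n := by ring
      omega
    · intro j _
      have hVj : ∑ l, wt G (fun l => a l + 1) a j l = V j := hV j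
      rw [hVj]
      simp only [Finset.card_univ, Fintype.card_fin, κ', θ']
      by_cases hj : k j ≤ K
      · left
        simp only [if_pos hj]
        refine ⟨le_refl _, ?_⟩
        rw [hNR]
        apply le_of_eq
        field_simp
      · right
        simp only [if_neg hj]
        refine ⟨le_refl _, ?_⟩
        apply le_of_eq
        field_simp
  let θ : Fin n → ℝ := fun i => min (1 / (n : ℝ)) (k i / ((m : ℝ) + n - 1)) * V i
  have hfeas2 : Feas G (fun l => a l + 1) Finset.univ (Finset.univ : Finset (Fin m)) a k θ := by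
    refine feas_shrink hGmono hfeas ?_
    intro j _
    by_cases hj : k j ≤ K
    · right
      simp only [κ', θ', θ, if_pos hj]
      refine ⟨hK1, hj, ?_⟩
      have h1 : min (1 / (n : ℝ)) (k j / ((m : ℝ) + n - 1)) * V j ≤ (k j : ℝ) / N * V j := by
        apply mul_le_mul_of_nonneg_right _ (hV0 j)
        rw [hNR]
        exact min_le_right _ _
      calc (K : ℝ) * (min (1 / (n : ℝ)) (k j / ((m : ℝ) + n - 1)) * V j)
          ≤ K * ((k j : ℝ) / N * V j) := mul_le_mul_of_nonneg_left h1 hKpos.le
        _ = k j * ((K : ℝ) / N * V j) := by ring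
    · left
      simp only [κ', θ', θ, if_neg hj]
      refine ⟨by omega, ?_⟩
      calc min (1 / (n : ℝ)) (k j / ((m : ℝ) + n - 1)) * V j ≤ 1 / (n : ℝ) * V j :=
            mul_le_mul_of_nonneg_right (min_le_left _ _) (hV0 j)
        _ = V j / n := by ring
  obtain ⟨S, lo, hi, p, q⟩ := hfeas2
  have hsub : ∀ i, ∀ l ∈ S i, Set.Ico (lo i l) (hi i l) ⊆ Set.Icc (a l) (a l + 1) := by
    intro i l hl x hx
    obtain ⟨c1, c2, c3⟩ := (p i (Finset.mem_univ i)).2.2.1 l hl
    exact ⟨c1.trans hx.1, hx.2.le.trans c3⟩
  refine ⟨fun i => ⋃ l ∈ S i, Set.Ico (lo i l) (hi i l), ?_, ?_⟩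
  · intro i j hij
    rw [Set.disjoint_left]
    intro x hx hx'
    rw [Set.mem_iUnion₂] at hx hx'
    obtain ⟨l, hl, hxl⟩ := hx
    obtain ⟨l', hl', hxl'⟩ := hx'
    by_cases hll : l = l'
    · subst hll
      rcases q i (Finset.mem_univ i) j (Finset.mem_univ j) hij l hl hl' with h | h
      · exact absurd (hxl.2.trans_le (h.trans hxl'.1)) (lt_irrefl _)
      · exact absurd (hxl'.2.trans_le (h.trans hxl.1)) (lt_irrefl _)
    · exact Set.disjoint_left.1 (ha l l' hll) (hsub i l hl hxl) (hsub j l' hl' hxl')
  · intro i
    obtain ⟨p1, p2, p3, p4⟩ := p i (Finset.mem_univ i)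
    refine ⟨⟨(S i).image (fun l => Set.Ico (lo i l) (hi i l)),
      (Finset.card_image_le).trans p2, ?_, ?_⟩, ?_⟩
    · intro I hI
      obtain ⟨l, hl, rfl⟩ := Finset.mem_image.1 hI
      exact ⟨Set.ordConnected_Ico, l, hsub i l hl⟩
    · rw [Finset.set_biUnion_finset_image]
    · have h1 : ∫ x in ⋃ l ∈ S i, Set.Ico (lo i l) (hi i l), v i x =
          ∑ l ∈ S i, ∫ x in Set.Ico (lo i l) (hi i l), v i x := by
        apply integral_biUnion_finset (S i) (fun l _ => measurableSet_Ico)
        · intro l hl l' hl' hne
          exact (ha l l' hne).mono (hsub i l hl) (hsub i l' hl')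
        · intro l hl
          exact (hint i).mono_set ((hsub i l hl).trans (Set.subset_iUnion
            (fun l => Set.Icc (a l) (a l + 1)) l))
      rw [h1]
      refine p4.trans (le_of_eq ?_)
      apply Finset.sum_congr rfl
      intro l hl
      rw [hGsub, intervalIntegral.integral_of_le (p3 l hl).2.1, ← integral_Ico_eq_integral_Ioc]
      apply setIntegral_congr_fun measurableSet_Ico
      intro x hx
      have hxc : x ∈ cake a := Set.mem_iUnion.2 ⟨l, hsub i l hl hx⟩
      simp only [v', Set.indicator_of_mem hxc]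

end Pool.Agent.Results.MP_a8acf3_co.PersonalizedPieces
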